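import Mathlib
import Pool.Agent.ConeMax.Main2

/-!
The exponential is not a maximiser of the weighted cone extension inequality unless
`s = 1/2` or `s = (d-1)/4`.
-/

set_option autoImplicit false

namespace Pool.Agent.Results.MP_2c2498_an.OnlyIf

open MeasureTheory Filter Topology
open Pool.Agent.ConeMax

/-- the one-variable inequality forces the first variation to vanish -/
theorem first_order {M Q p n0 n1 n2 : ℝ} (hp : 0 < p) (hn0 : 0 < n0)
    (h : ∀ ε : ℝ, (M + p * ε * Q) * n0 ^ (p / 2) ≤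
      M * (n0 + 2 * ε * n1 + ε ^ 2 * n2) ^ (p / 2)) :
    Q * n0 = M * n1 := by
  set F : ℝ → ℝ := fun ε => M * (n0 + 2 * ε * n1 + ε ^ 2 * n2) ^ (p / 2) -
    (M + p * ε * Q) * n0 ^ (p / 2) with hF
  have h0 : F 0 = 0 := by simp [hF]
  have hmin : IsLocalMin F 0 := by
    refine Eventually.of_forall fun ε => ?_
    rw [h0]
    have := h ε
    simp only [hF]
    linarith
  have hd1 : HasDerivAt (fun ε : ℝ => n0 + 2 * ε * n1 + ε ^ 2 * n2) (2 * n1) 0 := by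
    have h1 := ((((hasDerivAt_id (0:ℝ)).const_mul 2).mul_const n1).const_add n0).add
      (((hasDerivAt_id (0:ℝ)).pow 2).mul_const n2)
    convert! h1 using 1
    simp
  have hd2 := (hd1.rpow_const (p := p / 2) (Or.inl (by simpa using hn0.ne'))).const_mul M
  have hd3 : HasDerivAt (fun ε : ℝ => (M + p * ε * Q) * n0 ^ (p / 2)) (p * Q * n0 ^ (p / 2)) 0 := by
    have h1 := (((((hasDerivAt_id (0:ℝ)).const_mul p).mul_const Q).const_add M).mul_const
      (n0 ^ (p / 2)))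
    convert! h1 using 1
    simp
  have hd4 := hd2.sub hd3
  have h5 := hmin.hasDerivAt_eq_zero hd4
  have e1 : (n0 + 2 * (0:ℝ) * n1 + (0:ℝ) ^ 2 * n2) = n0 := by ring
  rw [e1] at h5
  have e2 : n0 ^ (p / 2) = n0 ^ (p / 2 - 1) * n0 := by
    rw [← Real.rpow_add_one hn0.ne']; congr 1; ring
  rw [e2] at h5
  have h6 : 0 < n0 ^ (p / 2 - 1) := Real.rpow_pos_of_pos hn0 _
  have h7 : (p * n0 ^ (p / 2 - 1)) * (Q * n0 - M * n1) = 0 := by linear_combination -h5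
  rcases mul_eq_zero.mp h7 with h8 | h8
  · exact absurd h8 (by positivity)
  · linarith

theorem result :
    ∀ d : ℕ, 2 ≤ d → ∀ s : ℝ, 1/2 ≤ s → s < (d:ℝ)/2 →
      ∀ p : ℝ, p = 2 * ((d:ℝ) + 1) / ((d:ℝ) - 2 * s) →
      (∀ g : EuclideanSpace ℝ (Fin d) → ℂ,
          MeasureTheory.Integrable (fun ξ : EuclideanSpace ℝ (Fin d) => ((‖ξ‖ ^ (-2 * s) : ℝ) : ℂ) * g ξ) →
          (∫⁻ ξ : EuclideanSpace ℝ (Fin d), ENNReal.ofReal (‖g ξ‖ ^ 2 * ‖ξ‖ ^ (-2 * s))) < ⊤ →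
          (∫⁻ z : ℝ × EuclideanSpace ℝ (Fin d),
              ‖∫ ξ : EuclideanSpace ℝ (Fin d),
                  Complex.exp (Complex.I * ((z.1 * ‖ξ‖ + inner ℝ z.2 ξ : ℝ) : ℂ))
                    * ((‖ξ‖ ^ (-2 * s) : ℝ) : ℂ) * g ξ‖ₑ ^ p)
            * (∫⁻ ξ : EuclideanSpace ℝ (Fin d),
                ENNReal.ofReal ((‖ξ‖ ^ (2 * s - 1) * Real.exp (-‖ξ‖)) ^ 2 * ‖ξ‖ ^ (-2 * s))) ^ (p / 2)
          ≤
          (∫⁻ z : ℝ × EuclideanSpace ℝ (Fin d),
              ‖∫ ξ : EuclideanSpace ℝ (Fin d),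
                  Complex.exp (Complex.I * ((z.1 * ‖ξ‖ + inner ℝ z.2 ξ : ℝ) : ℂ))
                    * ((‖ξ‖ ^ (-2 * s) : ℝ) : ℂ)
                    * (((‖ξ‖ ^ (2 * s - 1) * Real.exp (-‖ξ‖)) : ℝ) : ℂ)‖ₑ ^ p)
            * (∫⁻ ξ : EuclideanSpace ℝ (Fin d), ENNReal.ofReal (‖g ξ‖ ^ 2 * ‖ξ‖ ^ (-2 * s))) ^ (p / 2)) →
      (s = 1/2 ∨ s = ((d:ℝ) - 1) / 4) := by
  intro d hd s hs hs2 p hp H
  rcases hs.eq_or_lt with h | hs1
  · left; exact h.symm
  right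
  have h2d : (2:ℝ) ≤ d := two_le_cast hd
  have hds : 0 < (d:ℝ) - 2 * s := by linarith
  set k : ℝ := ((d:ℝ) - 1) * p / 4 with hk
  have hkdef : k = ((d:ℝ) ^ 2 - 1) / (2 * ((d:ℝ) - 2 * s)) := by
    rw [hk, hp]; field_simp; ring
  have hk2 : (d:ℝ) + 1 < 2 * k := by
    have e1 : 2 * k = ((d:ℝ) ^ 2 - 1) / ((d:ℝ) - 2 * s) := by rw [hkdef]; field_simp
    rw [e1, lt_div_iff₀ hds]
    nlinarith
  have hp1 : 1 ≤ p := by
    rw [hp, le_div_iff₀ hds]; linarith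
  have hp0 : 0 < p := by linarith
  have hQ := Q_eq hd hs1 hs2 hkdef hk2
  have hM := M_pos (d := d) hk2
  set M := II d k (fun _ _ => 1)
  set Q := II d k (RR d)
  have hC := C0_pos hd
  set C := ‖U0 (1:ℂ) (0 : EuclideanSpace ℝ (Fin d))‖
  have hCp : 0 < C ^ p := Real.rpow_pos_of_pos hC p
  have hn0 := nn_zero_pos hd hs
  have hn1 := nn_one hd hs
  -- the datum for `ε = 0`
  have hg0 : ∀ ξ : EuclideanSpace ℝ (Fin d),
      (((‖ξ‖ ^ (2 * s - 1) * Real.exp (-‖ξ‖)) : ℝ) : ℂ) = gdat s 0 ξ := by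
    intro ξ
    simp [gdat]
  have hg0' : ∀ ξ : EuclideanSpace ℝ (Fin d),
      (‖ξ‖ ^ (2 * s - 1) * Real.exp (-‖ξ‖)) ^ 2 = ‖gdat s 0 ξ‖ ^ 2 := by
    intro ξ
    rw [← hg0, Complex.norm_real, Real.norm_eq_abs, sq_abs]
  have hineq : ∀ ε : ℝ, (M + p * ε * Q) * nn d s 0 ^ (p / 2) ≤
      M * (nn d s 0 + 2 * ε * nn d s 1 + ε ^ 2 * nn d s 2) ^ (p / 2) := by
    intro ε
    have h1 := H (gdat s ε) (gdat_integrable hd s ε) (by
      rw [l2_eq hd hs]; exact ENNReal.ofReal_lt_top)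
    simp only [hg0, hg0', transform_eq hd] at h1
    rw [l2_eq hd hs, l2_eq hd hs] at h1
    have h2 := lower hd ε hp1 hk hk2
    have h3 := exact0 hd hp1 hk hk2
    simp only [Complex.ofReal_zero, zero_mul, add_zero, mul_zero, ne_eq, OfNat.ofNat_ne_zero,
      not_false_eq_true, zero_pow] at h1
    rw [h3] at h1
    have h4 := l2_nonneg hd hs ε
    have h5 := (mul_le_mul_left h2 (ENNReal.ofReal (nn d s 0) ^ (p / 2))).trans h1
    rw [ENNReal.ofReal_rpow_of_nonneg hn0.le (by positivity),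
      ENNReal.ofReal_rpow_of_nonneg h4 (by positivity),
      ← ENNReal.ofReal_mul' (by positivity), ← ENNReal.ofReal_mul' (by positivity)] at h5
    have h6 := (ENNReal.ofReal_le_ofReal_iff (by positivity)).mp h5
    have h7 : C ^ p * ((M + p * ε * Q) * nn d s 0 ^ (p / 2)) ≤
        C ^ p * (M * (nn d s 0 + 2 * ε * nn d s 1 + ε ^ 2 * nn d s 2) ^ (p / 2)) := by
      linarith
    exact le_of_mul_le_mul_left h7 hCp
  have hfo := first_order hp0 hn0 hineq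
  rw [hn1] at hfo
  have hfo2 : Q = M * ((2 * s + d - 1) * (2 * s + d - 2) / 4) := by
    have : (Q - M * ((2 * s + d - 1) * (2 * s + d - 2) / 4)) * nn d s 0 = 0 := by
      linear_combination hfo
    rcases mul_eq_zero.mp this with h | h
    · linarith
    · exact absurd h hn0.ne'
  rw [hfo2, sub_self] at hQ
  have hP : 0 < (d:ℝ) ^ 2 + 2 * d - 1 - 4 * s := by nlinarith
  have h8 : ((d:ℝ) - 2 + 2 * s) * (2 * s - 1) * (4 * s - (d - 1)) /
        (4 * ((d:ℝ) ^ 2 + 2 * d - 1 - 4 * s)) = 0 := by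
    rcases mul_eq_zero.mp hQ.symm with h | h
    · exact absurd h hM.ne'
    · exact h
  rw [div_eq_zero_iff] at h8
  rcases h8 with h8 | h8
  · rcases mul_eq_zero.mp h8 with h9 | h9
    · rcases mul_eq_zero.mp h9 with h10 | h10
      · exfalso; linarith
      · exfalso; linarith
    · linarith
  · exfalso; linarith

end Pool.Agent.Results.MP_2c2498_an.OnlyIf
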